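import Pool.Agent.Helper17.R5.Sheet

set_option autoImplicit false

namespace Pool.Helper17.R5

theorem ineq_key (a b c n z w z' w' : ℤ) (hV : n ^ 2 ≤ a * c - b ^ 2) :
    n ^ 2 * (z * w' - w * z') ^ 2 ≤ |bq a b c z w| * |bq a b c z' w'| := by
  rw [← abs_mul]
  have e : bq a b c z w * bq a b c z' w' =
      (a * z * z' + b * (z * w' + w * z') + c * w * w') ^ 2 +
        (a * c - b ^ 2) * (z * w' - w * z') ^ 2 := by
    unfold bq; ring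
  have h1 : n ^ 2 * (z * w' - w * z') ^ 2 ≤ bq a b c z w * bq a b c z' w' := by
    rw [e]
    have h2 : n ^ 2 * (z * w' - w * z') ^ 2 ≤ (a * c - b ^ 2) * (z * w' - w * z') ^ 2 :=
      mul_le_mul_of_nonneg_right hV (sq_nonneg _)
    nlinarith [sq_nonneg (a * z * z' + b * (z * w' + w * z') + c * w * w')]
  exact h1.trans (le_abs_self _)

theorem ineq_bq10 (a b c : ℤ) : bq a b c 1 0 = a := by unfold bq; ring

theorem st_INEQ : ST_INEQ := by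
  intro K hK
  have hK0 : 0 ≤ K := by linarith
  have hK2 : 1 ≤ K ^ 2 := one_le_pow₀ hK
  have hK3 : 1 ≤ K ^ 3 := one_le_pow₀ hK
  have hK4 : 1 ≤ K ^ 4 := one_le_pow₀ hK
  have hKK : K ≤ K ^ 4 := le_self_pow₀ hK (by norm_num)
  have hK34 : K ^ 3 ≤ K ^ 4 := pow_le_pow_right₀ hK (by norm_num)
  refine ⟨K ^ 4, hK4, ?_⟩
  intro n a b c D κ rb rb' hn hV hD h1 h2
  have hn0 : (1 : ℤ) ≤ (n : ℤ) := by exact_mod_cast hn
  have hn2 : (0 : ℤ) < (n : ℤ) ^ 2 := by positivity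
  have hn4 : (0 : ℤ) < (n : ℤ) ^ 4 := by positivity
  have ha : a ≠ 0 := by
    intro h; subst h
    nlinarith [sq_nonneg b]
  have hA : 0 < |a| := abs_pos.mpr ha
  set A := |a| with hAdef
  set Qb := |bq a b c κ D| with hQb
  have hQb0 : 0 ≤ Qb := abs_nonneg _
  -- (C2)
  have c2 : D ^ 2 * (n : ℤ) ^ 2 ≤ A * Qb := by
    have := ineq_key a b c n 1 0 κ D hV
    rw [ineq_bq10] at this
    calc D ^ 2 * (n : ℤ) ^ 2 = (n : ℤ) ^ 2 * (1 * D - 0 * κ) ^ 2 := by ring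
      _ ≤ _ := this
  -- (C1) with K^3
  have c1 : A * Qb ≤ K ^ 3 * D ^ 2 * (n : ℤ) ^ 2 := by
    set Qr := |bq a b c (-rb') rb| with hQr
    have hQr0 : 0 ≤ Qr := abs_nonneg _
    have k1 : (n : ℤ) ^ 2 * rb ^ 2 ≤ A * Qr := by
      have := ineq_key a b c n 1 0 (-rb') rb hV
      rw [ineq_bq10] at this
      calc (n : ℤ) ^ 2 * rb ^ 2 = (n : ℤ) ^ 2 * (1 * rb - 0 * (-rb')) ^ 2 := by ring
        _ ≤ _ := this
    -- Qb rb² ≤ K n² A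
    have k2 : Qb * rb ^ 2 ≤ K * (n : ℤ) ^ 2 * A := by
      have k3 : (n : ℤ) ^ 2 * (Qb * rb ^ 2) ≤ (n : ℤ) ^ 2 * (K * (n : ℤ) ^ 2 * A) := by
        calc (n : ℤ) ^ 2 * (Qb * rb ^ 2) = Qb * ((n : ℤ) ^ 2 * rb ^ 2) := by ring
          _ ≤ Qb * (A * Qr) := mul_le_mul_of_nonneg_left k1 hQb0
          _ = A * (Qb * Qr) := by ring
          _ ≤ A * (K * (n : ℤ) ^ 4) := mul_le_mul_of_nonneg_left h1 hA.le
          _ = (n : ℤ) ^ 2 * (K * (n : ℤ) ^ 2 * A) := by ring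
      exact le_of_mul_le_mul_left k3 hn2
    have k4 : A ^ 2 ≤ K ^ 2 * (D ^ 2 * rb ^ 2) := by
      calc A ^ 2 ≤ (K * |D * rb|) ^ 2 := pow_le_pow_left₀ hA.le h2 2
        _ = K ^ 2 * (D * rb) ^ 2 := by rw [mul_pow, sq_abs]
        _ = K ^ 2 * (D ^ 2 * rb ^ 2) := by ring
    have k5 : A * (A * Qb) ≤ A * (K ^ 3 * D ^ 2 * (n : ℤ) ^ 2) := by
      calc A * (A * Qb) = A ^ 2 * Qb := by ring
        _ ≤ K ^ 2 * (D ^ 2 * rb ^ 2) * Qb := mul_le_mul_of_nonneg_right k4 hQb0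
        _ = K ^ 2 * D ^ 2 * (Qb * rb ^ 2) := by ring
        _ ≤ K ^ 2 * D ^ 2 * (K * (n : ℤ) ^ 2 * A) := mul_le_mul_of_nonneg_left k2 (by positivity)
        _ = A * (K ^ 3 * D ^ 2 * (n : ℤ) ^ 2) := by ring
    exact le_of_mul_le_mul_left k5 hA
  refine ⟨?_, c2, ?_⟩
  · calc A * Qb ≤ K ^ 3 * D ^ 2 * (n : ℤ) ^ 2 := c1
      _ = K ^ 3 * (D ^ 2 * (n : ℤ) ^ 2) := by ring
      _ ≤ K ^ 4 * (D ^ 2 * (n : ℤ) ^ 2) := mul_le_mul_of_nonneg_right hK34 (by positivity)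
      _ = K ^ 4 * D ^ 2 * (n : ℤ) ^ 2 := by ring
  · intro p p' r r' hpr
    set Qp := |bq a b c (-p') p| with hQp
    set Qr := |bq a b c (-r') r| with hQr
    have hQp0 : 0 ≤ Qp := abs_nonneg _
    have hQr0 : 0 ≤ Qr := abs_nonneg _
    have kp : (n : ℤ) ^ 2 * p ^ 2 ≤ A * Qp := by
      have := ineq_key a b c n 1 0 (-p') p hV
      rw [ineq_bq10] at this
      calc (n : ℤ) ^ 2 * p ^ 2 = (n : ℤ) ^ 2 * (1 * p - 0 * (-p')) ^ 2 := by ring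
        _ ≤ _ := this
    have kr : (n : ℤ) ^ 2 * r ^ 2 ≤ A * Qr := by
      have := ineq_key a b c n 1 0 (-r') r hV
      rw [ineq_bq10] at this
      calc (n : ℤ) ^ 2 * r ^ 2 = (n : ℤ) ^ 2 * (1 * r - 0 * (-r')) ^ 2 := by ring
        _ ≤ _ := this
    have bp : (n : ℤ) ^ 2 * (p * κ + p' * D) ^ 2 ≤ Qb * Qp := by
      have := ineq_key a b c n κ D (-p') p hV
      calc (n : ℤ) ^ 2 * (p * κ + p' * D) ^ 2 = (n : ℤ) ^ 2 * (κ * p - D * (-p')) ^ 2 := by ring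
        _ ≤ _ := this
    have br : (n : ℤ) ^ 2 * (r * κ + r' * D) ^ 2 ≤ Qb * Qr := by
      have := ineq_key a b c n κ D (-r') r hV
      calc (n : ℤ) ^ 2 * (r * κ + r' * D) ^ 2 = (n : ℤ) ^ 2 * (κ * r - D * (-r')) ^ 2 := by ring
        _ ≤ _ := this
    refine ⟨?_, ?_, ?_⟩
    · have k1 : (n : ℤ) ^ 4 * (p * r) ^ 2 ≤ (n : ℤ) ^ 4 * (K * A) ^ 2 := by
        calc (n : ℤ) ^ 4 * (p * r) ^ 2 = ((n : ℤ) ^ 2 * p ^ 2) * ((n : ℤ) ^ 2 * r ^ 2) := by ring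
          _ ≤ (A * Qp) * (A * Qr) := mul_le_mul kp kr (by positivity) (by positivity)
          _ = A ^ 2 * (Qp * Qr) := by ring
          _ ≤ A ^ 2 * (K * (n : ℤ) ^ 4) := mul_le_mul_of_nonneg_left hpr (by positivity)
          _ = K * (A ^ 2 * (n : ℤ) ^ 4) := by ring
          _ ≤ K ^ 2 * (A ^ 2 * (n : ℤ) ^ 4) := by
              apply mul_le_mul_of_nonneg_right _ (by positivity)
              exact le_self_pow₀ hK (by norm_num)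
          _ = (n : ℤ) ^ 4 * (K * A) ^ 2 := by ring
      have k2 : (p * r) ^ 2 ≤ (K * A) ^ 2 := le_of_mul_le_mul_left k1 hn4
      have k3 : |p * r| ≤ K * A := by
        have := sq_le_sq.mp k2
        rwa [abs_of_nonneg (by positivity : (0 : ℤ) ≤ K * A)] at this
      exact k3.trans (mul_le_mul_of_nonneg_right hKK hA.le)
    · have k1 : (n : ℤ) ^ 2 * ((p * κ + p' * D) ^ 2 * A) ≤ (n : ℤ) ^ 2 * (K ^ 3 * Qp * D ^ 2) := by
        calc (n : ℤ) ^ 2 * ((p * κ + p' * D) ^ 2 * A) = A * ((n : ℤ) ^ 2 * (p * κ + p' * D) ^ 2) := by ring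
          _ ≤ A * (Qb * Qp) := mul_le_mul_of_nonneg_left bp hA.le
          _ = (A * Qb) * Qp := by ring
          _ ≤ (K ^ 3 * D ^ 2 * (n : ℤ) ^ 2) * Qp := mul_le_mul_of_nonneg_right c1 hQp0
          _ = (n : ℤ) ^ 2 * (K ^ 3 * Qp * D ^ 2) := by ring
      have k2 := le_of_mul_le_mul_left k1 hn2
      calc (p * κ + p' * D) ^ 2 * A ≤ K ^ 3 * Qp * D ^ 2 := k2
        _ = K ^ 3 * (Qp * D ^ 2) := by ring
        _ ≤ K ^ 4 * (Qp * D ^ 2) := mul_le_mul_of_nonneg_right hK34 (by positivity)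
        _ = K ^ 4 * Qp * D ^ 2 := by ring
    · have k1 : (n : ℤ) ^ 2 * ((r * κ + r' * D) ^ 2 * A * Qp) ≤
          (n : ℤ) ^ 2 * (K ^ 4 * (n : ℤ) ^ 4 * D ^ 2) := by
        calc (n : ℤ) ^ 2 * ((r * κ + r' * D) ^ 2 * A * Qp)
            = (A * Qp) * ((n : ℤ) ^ 2 * (r * κ + r' * D) ^ 2) := by ring
          _ ≤ (A * Qp) * (Qb * Qr) := mul_le_mul_of_nonneg_left br (by positivity)
          _ = (A * Qb) * (Qp * Qr) := by ring
          _ ≤ (K ^ 3 * D ^ 2 * (n : ℤ) ^ 2) * (K * (n : ℤ) ^ 4) :=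
              mul_le_mul c1 hpr (by positivity) (by positivity)
          _ = (n : ℤ) ^ 2 * (K ^ 4 * (n : ℤ) ^ 4 * D ^ 2) := by ring
      exact le_of_mul_le_mul_left k1 hn2

end Pool.Helper17.R5
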