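import Pool.Agent.Helper17.R5.Sheet

set_option autoImplicit false

namespace Pool.Helper17.R5

theorem fib_ext (u v w a b : V3) (hd : det3 u v w ≠ 0) (h1 : lin a u = lin b u)
    (h2 : lin a v = lin b v) (h3 : lin a w = lin b w) : a = b := by
  obtain ⟨a1, a2, a3⟩ := a
  obtain ⟨b1, b2, b3⟩ := b
  obtain ⟨u1, u2, u3⟩ := u
  obtain ⟨v1, v2, v3⟩ := v
  obtain ⟨w1, w2, w3⟩ := w
  simp only [lin, det3] at h1 h2 h3 hd
  have e1 : a1 = b1 := by
    apply mul_left_cancel₀ hd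
    linear_combination (v2 * w3 - v3 * w2) * h1 - (u2 * w3 - u3 * w2) * h2 + (u2 * v3 - u3 * v2) * h3
  have e2 : a2 = b2 := by
    apply mul_left_cancel₀ hd
    linear_combination -(v1 * w3 - v3 * w1) * h1 + (u1 * w3 - u3 * w1) * h2 - (u1 * v3 - u3 * v1) * h3
  have e3 : a3 = b3 := by
    apply mul_left_cancel₀ hd
    linear_combination (v1 * w2 - v2 * w1) * h1 - (u1 * w2 - u2 * w1) * h2 + (u1 * v2 - u2 * v1) * h3
  rw [e1, e2, e3]

/-- the combination `κ² α + 2 κ D β + D² γ` -/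
def fibG (α β γ : V3) (κ D : ℤ) : V3 :=
  (κ ^ 2 * α.1 + 2 * κ * D * β.1 + D ^ 2 * γ.1,
    κ ^ 2 * α.2.1 + 2 * κ * D * β.2.1 + D ^ 2 * γ.2.1,
    κ ^ 2 * α.2.2 + 2 * κ * D * β.2.2 + D ^ 2 * γ.2.2)

theorem lin_fibG (α β γ t : V3) (κ D : ℤ) :
    lin (fibG α β γ κ D) t = κ ^ 2 * lin α t + κ * D * (2 * lin β t) + D ^ 2 * lin γ t := by
  simp only [lin, fibG]; ring

theorem fib_tf (N N' : TF) (h : ∀ t : V3, ev N t = ev N' t) : N = N' := by
  obtain ⟨a, b, h', k, d, e⟩ := N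
  obtain ⟨a2, b2, h2, k2, d2, e2⟩ := N'
  have t1 := h (1, 0, 0)
  have t2 := h (0, 1, 0)
  have t3 := h (0, 0, 1)
  have t4 := h (1, 1, 0)
  have t5 := h (1, 0, 1)
  have t6 := h (0, 1, 1)
  simp only [ev, tfa, tfb, tfh, tfk, tfd, tfe] at t1 t2 t3 t4 t5 t6
  norm_num at t1 t2 t3 t4 t5 t6
  subst t1 t2 t3
  have e4 : b = b2 := by linarith
  have e5 : k = k2 := by linarith
  have e6 : d = d2 := by linarith
  rw [e4, e5, e6]

theorem st_FIB : ST_FIB := by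
  intro va vb vi vj vk hd1 hd2 hd3 N N' α β γ α' β' γ' D κ rb rb' pi pi' ri ri' pj pj' rj rj'
    pk pk' rk rk' qb qb' qi qj qk qk' hD hpi hpj hpk hk hR hR' ha ha' hi hj
    hb hb' hvi hvi' hvj hvj' hvk hvk'
  have hα : α = α' := fib_ext vi vj va α α' hd2 hi hj (by rw [ha, ha'])
  subst hα
  obtain ⟨b1, b2, b3⟩ := hb
  obtain ⟨b1', b2', b3'⟩ := hb'
  obtain ⟨i1, i2, i3⟩ := hvi
  obtain ⟨i1', i2', i3'⟩ := hvi'
  obtain ⟨j1, j2, j3⟩ := hvj
  obtain ⟨j1', j2', j3'⟩ := hvj'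
  obtain ⟨k1, k2, k3⟩ := hvk
  obtain ⟨k1', k2', k3'⟩ := hvk'
  have er : ri = qi := mul_left_cancel₀ hpi (by rw [← i1, ← i1'])
  have es : rj = qj := mul_left_cancel₀ hpj (by rw [← j1, ← j1'])
  have et : rk = qk := mul_left_cancel₀ hpk (by rw [← k1, ← k1'])
  subst er es et
  have gi : lin (fibG α β γ κ D) vi = lin (fibG α β' γ' κ D) vi := by
    rw [lin_fibG, lin_fibG, i2, i2', i3, i3']
  have gj : lin (fibG α β γ κ D) vj = lin (fibG α β' γ' κ D) vj := by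
    rw [lin_fibG, lin_fibG, j2, j2', j3, j3']
  have gb : lin (fibG α β γ κ D) vb = lin (fibG α β' γ' κ D) vb := by
    have e1 : lin (fibG α β γ κ D) vb = 0 := by
      rw [lin_fibG, b1, b2, b3]; ring
    have e2 : lin (fibG α β' γ' κ D) vb = 0 := by
      rw [lin_fibG, b1', b2', b3']; ring
    rw [e1, e2]
  have hG := fib_ext vi vj vb _ _ hd3 gi gj gb
  have gk : lin (fibG α β γ κ D) vk = lin (fibG α β' γ' κ D) vk := by rw [hG]
  have ek : rk' = qk' := by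
    rw [lin_fibG, lin_fibG, k1, k2, k2', k3, k3'] at gk
    have h1 : (pk * κ + pk' * D) * (D * rk') = (pk * κ + pk' * D) * (D * qk') := by
      linear_combination gk
    exact mul_left_cancel₀ hD (mul_left_cancel₀ hk h1)
  subst ek
  have hβ : β = β' := fib_ext vi vj vk β β' hd1 (by omega) (by omega) (by omega)
  have hγ : γ = γ' := fib_ext vi vj vk γ γ' hd1 (by rw [i3, i3']) (by rw [j3, j3']) (by rw [k3, k3'])
  subst hβ hγ
  exact fib_tf N N' (fun t => by rw [hR t, hR' t])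

end Pool.Helper17.R5
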